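import Pool.Agent.Helper51.CRV.Upper

/-!
# Upper bound, counting part
-/

namespace Pool.Agent.Helper51.CRV

open Finset

open Classical in
/-- Number of sides of `x` that are covered by a member of `I`. -/
noncomputable def cnt {n : ℕ} (R : Fin n → Rect) (I : Finset (Fin n)) (x : Fin n) : ℕ :=
  ((univ : Finset (Fin 4)).filter (fun s => ∃ w ∈ I, Cov s (R w) (R x))).card

open Classical in
theorem core_edges {n : ℕ} (R : Fin n → Rect) (hd : ∀ i j, i ≠ j → ¬ Meets (R i) (R j))
    (I : Finset (Fin n)) : (core R I).edgeFinset.card ≤ 3 * I.card ^ 2 / 8 := by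
  have h := SimpleGraph.CliqueFree.card_edgeFinset_le (core_cliqueFree R hd I)
  simp only [Fintype.card_coe] at h
  refine h.trans ?_
  set m := I.card
  rw [Nat.le_div_iff_mul_le (by norm_num)]
  have h1 : (m ^ 2 - (m % 4) ^ 2) * (4 - 1) / (2 * 4) * 8 ≤ (m ^ 2 - (m % 4) ^ 2) * 3 :=
    Nat.div_mul_le_self _ _
  have h2 : (m % 4).choose 2 * 8 ≤ 3 * (m % 4) ^ 2 := by
    have : m % 4 < 4 := Nat.mod_lt _ (by norm_num)
    interval_cases m % 4 <;> decide
  have h3 : (m % 4) ^ 2 ≤ m ^ 2 := Nat.pow_le_pow_left (Nat.mod_le _ _) 2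
  rw [add_mul]
  omega

open Classical in
theorem sum_core {n : ℕ} (R : Fin n → Rect) (hd : ∀ i j, i ≠ j → ¬ Meets (R i) (R j))
    (I : Finset (Fin n)) :
    ∑ x ∈ I, (I.filter (fun w => Vis R x w ∧ (∀ s, ¬ Cov s (R x) (R w)) ∧
      (∀ s, ¬ Cov s (R w) (R x)))).card ≤ 2 * (3 * I.card ^ 2 / 8) := by
  have h1 : ∑ x ∈ I, (I.filter (fun w => Vis R x w ∧ (∀ s, ¬ Cov s (R x) (R w)) ∧
      (∀ s, ¬ Cov s (R w) (R x)))).card = ∑ x : I, (core R I).degree x := by
    rw [← Finset.sum_coe_sort I]
    refine Finset.sum_congr rfl fun x _ => ?_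
    rw [← SimpleGraph.card_neighborFinset_eq_degree]
    rw [← Finset.card_map ⟨Subtype.val, Subtype.val_injective⟩]
    congr 1
    ext w
    simp only [mem_filter, mem_map, SimpleGraph.mem_neighborFinset, Function.Embedding.coeFn_mk,
      Subtype.exists]
    constructor
    · rintro ⟨hw, h⟩
      exact ⟨w, hw, h, rfl⟩
    · rintro ⟨a, ha, h, rfl⟩
      exact ⟨ha, h⟩
  rw [h1, SimpleGraph.sum_degrees_eq_twice_card_edges]
  exact Nat.mul_le_mul_left 2 (core_edges R hd I)

open Classical in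
theorem card_cov_le {n : ℕ} (R : Fin n → Rect) (I : Finset (Fin n)) (x : Fin n) :
    (I.filter (fun w => Vis R x w ∧ ∃ s, Cov s (R w) (R x))).card ≤ cnt R I x := by
  have hsub : I.filter (fun w => Vis R x w ∧ ∃ s, Cov s (R w) (R x)) ⊆
      ((univ : Finset (Fin 4)).filter (fun s => ∃ w ∈ I, Cov s (R w) (R x))).biUnion
        (fun s => I.filter (fun w => Vis R x w ∧ Cov s (R w) (R x))) := by
    intro w hw
    rw [mem_filter] at hw
    obtain ⟨hwI, hv, s, hs⟩ := hw
    rw [mem_biUnion]
    exact ⟨s, mem_filter.2 ⟨mem_univ _, w, hwI, hs⟩, mem_filter.2 ⟨hwI, hv, hs⟩⟩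
  refine (card_le_card hsub).trans (card_biUnion_le.trans ?_)
  rw [cnt, card_eq_sum_ones]
  refine Finset.sum_le_sum fun s _ => ?_
  rw [Finset.card_le_one]
  intro a ha b hb
  rw [mem_filter] at ha hb
  exact cov_unique s ha.2.2 hb.2.2 ha.2.1.symm hb.2.1.symm

open Classical in
theorem sum_inside {n : ℕ} (R : Fin n → Rect) (hd : ∀ i j, i ≠ j → ¬ Meets (R i) (R j))
    (I : Finset (Fin n)) :
    ∑ x ∈ I, (I.filter (fun w => Vis R x w)).card ≤
      2 * (3 * I.card ^ 2 / 8) + 2 * ∑ x ∈ I, cnt R I x := by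
  have h1 : ∀ x ∈ I, (I.filter (fun w => Vis R x w)).card ≤
      (I.filter (fun w => Vis R x w ∧ (∀ s, ¬ Cov s (R x) (R w)) ∧
        (∀ s, ¬ Cov s (R w) (R x)))).card +
      (I.filter (fun w => Vis R x w ∧ ∃ s, Cov s (R w) (R x))).card +
      (I.filter (fun w => Vis R x w ∧ ∃ s, Cov s (R x) (R w))).card := by
    intro x _
    refine (card_le_card ?_).trans ((card_union_le _ _).trans
      (Nat.add_le_add_right (card_union_le _ _) _))
    intro w hw
    rw [mem_filter] at hw
    rw [mem_union, mem_union, mem_filter, mem_filter, mem_filter]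
    by_cases a : ∃ s, Cov s (R w) (R x)
    · exact Or.inl (Or.inr ⟨hw.1, hw.2, a⟩)
    · by_cases b : ∃ s, Cov s (R x) (R w)
      · exact Or.inr ⟨hw.1, hw.2, b⟩
      · push Not at a b
        exact Or.inl (Or.inl ⟨hw.1, hw.2, b, a⟩)
  have h3 : ∑ x ∈ I, (I.filter (fun w => Vis R x w ∧ ∃ s, Cov s (R x) (R w))).card =
      ∑ x ∈ I, (I.filter (fun w => Vis R x w ∧ ∃ s, Cov s (R w) (R x))).card := by
    simp only [card_filter]
    rw [Finset.sum_comm]
    refine Finset.sum_congr rfl fun x _ => Finset.sum_congr rfl fun w _ => ?_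
    have : (Vis R w x ∧ ∃ s, Cov s (R w) (R x)) ↔ (Vis R x w ∧ ∃ s, Cov s (R w) (R x)) :=
      ⟨fun h => ⟨h.1.symm, h.2⟩, fun h => ⟨h.1.symm, h.2⟩⟩
    simp only [this]
  have h4 : ∑ x ∈ I, (I.filter (fun w => Vis R x w ∧ ∃ s, Cov s (R w) (R x))).card ≤
      ∑ x ∈ I, cnt R I x := Finset.sum_le_sum fun x _ => card_cov_le R I x
  have h5 := Finset.sum_le_sum h1
  rw [Finset.sum_add_distrib, Finset.sum_add_distrib, h3] at h5
  have h6 := sum_core R hd I
  omega

theorem exists_extremes {n : ℕ} (hn : 4 ≤ n) (R : Fin n → Rect) :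
    ∃ q : Fin 4 → Fin n, Function.Injective q ∧
      ∀ s w, (∀ t, w ≠ q t) → pos s (R (q s)) ≤ pos s (R w) := by
  classical
  have hcard : (univ : Finset (Fin n)).card = n := by simp
  obtain ⟨q0, -, h0⟩ := Finset.exists_min_image (univ : Finset (Fin n)) (fun w => pos 0 (R w))
    (Finset.card_pos.1 (by omega))
  have c1 : ((univ : Finset (Fin n)).erase q0).card = n - 1 := by
    rw [card_erase_of_mem (mem_univ _), hcard]
  obtain ⟨q1, m1, h1⟩ := Finset.exists_min_image ((univ : Finset (Fin n)).erase q0)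
    (fun w => pos 1 (R w)) (Finset.card_pos.1 (by omega))
  have c2 : (((univ : Finset (Fin n)).erase q0).erase q1).card = n - 2 := by
    rw [card_erase_of_mem m1, c1]; omega
  obtain ⟨q2, m2, h2⟩ := Finset.exists_min_image (((univ : Finset (Fin n)).erase q0).erase q1)
    (fun w => pos 2 (R w)) (Finset.card_pos.1 (by omega))
  have c3 : ((((univ : Finset (Fin n)).erase q0).erase q1).erase q2).card = n - 3 := by
    rw [card_erase_of_mem m2, c2]; omega
  obtain ⟨q3, m3, h3⟩ := Finset.exists_min_image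
    ((((univ : Finset (Fin n)).erase q0).erase q1).erase q2)
    (fun w => pos 3 (R w)) (Finset.card_pos.1 (by omega))
  simp only [mem_erase, mem_univ, and_true] at m1 m2 m3 h1 h2 h3 h0
  refine ⟨![q0, q1, q2, q3], ?_, ?_⟩
  · intro a b hab
    fin_cases a <;> fin_cases b <;> simp_all
  · intro s w hw
    have e0 : w ≠ q0 := hw 0
    have e1 : w ≠ q1 := hw 1
    have e2 : w ≠ q2 := hw 2
    have e3 : w ≠ q3 := hw 3
    fin_cases s
    · exact h0 w trivial
    · exact h1 w e0
    · exact h2 w ⟨e1, e0⟩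
    · exact h3 w ⟨e2, e1, e0⟩

open Classical in
/-- Number of ordered visible pairs. -/
theorem sum_all {n : ℕ} (hn : 4 ≤ n) (R : Fin n → Rect)
    (hd : ∀ i j, i ≠ j → ¬ Meets (R i) (R j)) :
    ∑ x, ((univ : Finset (Fin n)).filter (fun w => Vis R x w)).card ≤
      2 * (3 * n ^ 2 / 8 + n - 4) := by
  obtain ⟨q, hq, hpos⟩ := exists_extremes hn R
  set Q : Finset (Fin n) := (univ : Finset (Fin 4)).image q with hQ
  have hQc : Q.card = 4 := by
    rw [hQ, card_image_of_injective _ hq]; simp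
  set I : Finset (Fin n) := Qᶜ with hI
  have hIc : I.card = n - 4 := by
    rw [hI, card_compl, hQc]; simp
  have hnot : ∀ w ∈ I, ∀ t, w ≠ q t := by
    rintro w hw t rfl
    rw [hI, mem_compl] at hw
    exact hw (mem_image_of_mem q (mem_univ t))
  have hsplit : ∀ x, ((univ : Finset (Fin n)).filter (fun w => Vis R x w)).card =
      (Q.filter (fun w => Vis R x w)).card + (I.filter (fun w => Vis R x w)).card := by
    intro x
    rw [← card_union_of_disjoint, ← filter_union, hI, union_compl]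
    exact disjoint_filter_filter (disjoint_compl_right)
  have hsum : ∀ f : Fin n → ℕ, ∑ x, f x = ∑ x ∈ Q, f x + ∑ x ∈ I, f x := by
    intro f
    rw [hI, Finset.sum_add_sum_compl]
  rw [hsum]
  simp only [hsplit, Finset.sum_add_distrib]
  have hQQ : ∑ x ∈ Q, (Q.filter (fun w => Vis R x w)).card ≤ 12 := by
    have : ∀ x ∈ Q, (Q.filter (fun w => Vis R x w)).card ≤ 3 := by
      intro x hx
      have hsub : Q.filter (fun w => Vis R x w) ⊆ Q.erase x := by
        intro w hw
        rw [mem_filter] at hw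
        exact mem_erase.2 ⟨hw.2.1.symm, hw.1⟩
      refine (card_le_card hsub).trans ?_
      rw [card_erase_of_mem hx, hQc]
    have h := Finset.sum_le_card_nsmul Q _ 3 this
    rw [hQc] at h
    simpa using h
  have hcomm : ∑ x ∈ Q, (I.filter (fun w => Vis R x w)).card =
      ∑ x ∈ I, (Q.filter (fun w => Vis R x w)).card := by
    simp only [card_filter]
    rw [Finset.sum_comm]
    refine Finset.sum_congr rfl fun x _ => Finset.sum_congr rfl fun w _ => ?_
    have : Vis R w x ↔ Vis R x w := ⟨fun h => h.symm, fun h => h.symm⟩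
    simp only [this]
  have hIQ : ∑ x ∈ I, (Q.filter (fun w => Vis R x w)).card + ∑ x ∈ I, cnt R I x ≤
      4 * (n - 4) := by
    rw [← Finset.sum_add_distrib]
    have : ∀ x ∈ I, (Q.filter (fun w => Vis R x w)).card + cnt R I x ≤ 4 := by
      intro x hx
      have e1 : Q.filter (fun w => Vis R x w) =
          ((univ : Finset (Fin 4)).filter (fun s => Vis R x (q s))).image q := by
        ext w
        simp only [hQ, mem_filter, mem_image, mem_univ, true_and]
        constructor
        · rintro ⟨⟨s, rfl⟩, h⟩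
          exact ⟨s, h, rfl⟩
        · rintro ⟨s, h, rfl⟩
          exact ⟨⟨s, rfl⟩, h⟩
      rw [e1, card_image_of_injective _ hq, cnt, ← card_union_of_disjoint]
      · refine (card_le_univ _).trans ?_
        simp
      · rw [Finset.disjoint_filter]
        rintro s _ hv ⟨w, hw, hc⟩
        exact not_vis_of_cov s hc (hpos s w (hnot w hw)) (hnot w hw s).symm hv.symm
    have h := Finset.sum_le_card_nsmul I _ 4 this
    rw [hIc] at h
    simpa [mul_comm] using h
  have hII := sum_inside R hd I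
  rw [hIc] at hII
  obtain ⟨m, rfl⟩ : ∃ m, n = m + 4 := ⟨n - 4, by omega⟩
  have e1 : m + 4 - 4 = m := by omega
  rw [e1] at hII hIQ
  have e2 : 3 * (m + 4) ^ 2 / 8 = 3 * m ^ 2 / 8 + 3 * m + 6 := by
    have : 3 * (m + 4) ^ 2 = 3 * m ^ 2 + 8 * (3 * m + 6) := by ring
    rw [this, Nat.add_mul_div_left _ _ (by norm_num)]
    ring
  rw [e2, hcomm]
  omega

theorem numEdges_le {n : ℕ} (hn : 4 ≤ n) (R : Representation n) :
    R.numEdges ≤ 3 * n ^ 2 / 8 + n - 4 := by
  classical
  have h1 := sum_all hn R.rect (fun i j hij => not_meets_of_disjoint (R.disj i j hij))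
  have h2 : R.numEdges = R.graph.edgeFinset.card := by
    rw [Representation.numEdges, ← SimpleGraph.coe_edgeFinset, Set.ncard_coe_finset]
  have h3 := R.graph.sum_degrees_eq_twice_card_edges
  have h4 : ∑ v, R.graph.degree v ≤
      ∑ x, ((univ : Finset (Fin n)).filter (fun w => Vis R.rect x w)).card := by
    refine Finset.sum_le_sum fun x _ => ?_
    rw [← SimpleGraph.card_neighborFinset_eq_degree]
    refine card_le_card ?_
    intro w hw
    rw [SimpleGraph.mem_neighborFinset] at hw
    exact mem_filter.2 ⟨mem_univ _, Representation.adj_vis hw⟩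
  omega

theorem numEdges_le_choose {n : ℕ} (R : Representation n) : R.numEdges ≤ n.choose 2 := by
  classical
  have h2 : R.numEdges = R.graph.edgeFinset.card := by
    rw [Representation.numEdges, ← SimpleGraph.coe_edgeFinset, Set.ncard_coe_finset]
  rw [h2]
  have := R.graph.card_edgeFinset_le_card_choose_two
  simpa using this

end Pool.Agent.Helper51.CRV
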