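import Pool.Agent.Helper51.CRV.Lower2
import Pool.Agent.Helper51.CRV.Upper2

/-!
# Counting the edges of the pinwheel
-/

namespace Pool.Agent.Helper51.CRV

open Finset

/-- The claimed maximum. -/
def maxEdges (n : ℕ) : ℕ := if n < 4 then n.choose 2 else 3 * n ^ 2 / 8 + n - 4

theorem sum_formula (n : ℕ) : maxEdges n ≤ ∑ j ∈ range n, (j - (j / 4 - 1)) := by
  have key : ∀ m : ℕ, 3 * (m + 4) ^ 2 / 8 + m = ∑ j ∈ range (m + 4), (j - (j / 4 - 1)) := by
    intro m
    induction m with
    | zero => decide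
    | succ m ih =>
      rw [show m + 1 + 4 = (m + 4) + 1 by ring, Finset.sum_range_succ, ← ih]
      have hstep : 3 * (m + 4 + 1) ^ 2 / 8 = 3 * (m + 4) ^ 2 / 8 + (m + 4) - (m + 4) / 4 := by
        generalize hN : m + 4 = N
        obtain ⟨q, r, hr, rfl⟩ : ∃ q r : ℕ, r < 4 ∧ N = 4 * q + r :=
          ⟨N / 4, N % 4, Nat.mod_lt _ (by norm_num), (Nat.div_add_mod N 4).symm⟩
        have e1 : (4 * q + r) / 4 = q := by omega
        rw [e1]
        interval_cases r
        · have a1 : 3 * (4 * q + 0 + 1) ^ 2 = 48 * q ^ 2 + 24 * q + 3 := by ring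
          have a2 : 3 * (4 * q + 0) ^ 2 = 48 * q ^ 2 := by ring
          rw [a1, a2]
          generalize q ^ 2 = z
          omega
        · have a1 : 3 * (4 * q + 1 + 1) ^ 2 = 48 * q ^ 2 + 48 * q + 12 := by ring
          have a2 : 3 * (4 * q + 1) ^ 2 = 48 * q ^ 2 + 24 * q + 3 := by ring
          rw [a1, a2]
          generalize q ^ 2 = z
          omega
        · have a1 : 3 * (4 * q + 2 + 1) ^ 2 = 48 * q ^ 2 + 72 * q + 27 := by ring
          have a2 : 3 * (4 * q + 2) ^ 2 = 48 * q ^ 2 + 48 * q + 12 := by ring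
          rw [a1, a2]
          generalize q ^ 2 = z
          omega
        · have a1 : 3 * (4 * q + 3 + 1) ^ 2 = 48 * q ^ 2 + 96 * q + 48 := by ring
          have a2 : 3 * (4 * q + 3) ^ 2 = 48 * q ^ 2 + 72 * q + 27 := by ring
          rw [a1, a2]
          generalize q ^ 2 = z
          omega
      rw [hstep]
      omega
  rcases lt_or_ge n 4 with h | h
  · interval_cases n <;> decide
  · obtain ⟨m, rfl⟩ : ∃ m, n = m + 4 := ⟨n - 4, by omega⟩
    rw [← key m, maxEdges, if_neg (by omega)]
    omega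

theorem card_nonadj (j : ℕ) :
    ((range j).filter (fun i => ¬ (i % 4 ≠ j % 4 ∨ i + 4 = j))).card ≤ j / 4 - 1 := by
  have hsub : ((range j).filter (fun i => ¬ (i % 4 ≠ j % 4 ∨ i + 4 = j))).card ≤
      (range (j / 4 - 1)).card := by
    refine Finset.card_le_card_of_injOn (fun i => (j - i) / 4 - 2) ?_ ?_
    · intro i hi
      simp only [coe_filter, mem_range, Set.mem_ofPred_eq, not_or, not_not] at hi
      simp only [coe_range, Set.mem_Iio]
      omega
    · intro a ha b hb hab
      simp only [coe_filter, mem_range, Set.mem_ofPred_eq, not_or, not_not] at ha hb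
      simp only at hab
      omega
  simpa using hsub

theorem card_adj (j : ℕ) :
    j - (j / 4 - 1) ≤ ((range j).filter (fun i => i % 4 ≠ j % 4 ∨ i + 4 = j)).card := by
  have h1 := card_nonadj j
  have h2 := Finset.card_filter_add_card_filter_not (s := range j)
    (fun i => i % 4 ≠ j % 4 ∨ i + 4 = j)
  rw [card_range] at h2
  omega

theorem maxEdges_le_pinR (n : ℕ) : maxEdges n ≤ (pinR n).numEdges := by
  classical
  have h2 : (pinR n).numEdges = (pinR n).graph.edgeFinset.card := by
    rw [Representation.numEdges, ← SimpleGraph.coe_edgeFinset, Set.ncard_coe_finset]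
  rw [h2]
  set P : Finset (Fin n × Fin n) := (univ : Finset (Fin n × Fin n)).filter
    (fun p => (p.1 : ℕ) < p.2 ∧ ((p.1 : ℕ) % 4 ≠ (p.2 : ℕ) % 4 ∨ (p.1 : ℕ) + 4 = p.2)) with hP
  have hPE : P.card ≤ (pinR n).graph.edgeFinset.card := by
    refine Finset.card_le_card_of_injOn (fun p => s(p.1, p.2)) ?_ ?_
    · intro p hp
      simp only [hP, coe_filter, mem_univ, true_and, Set.mem_ofPred_eq] at hp
      simp only [SimpleGraph.coe_edgeFinset, SimpleGraph.mem_edgeSet]
      exact pin_adj hp.2
    · intro a ha b hb hab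
      simp only [hP, coe_filter, mem_univ, true_and, Set.mem_ofPred_eq] at ha hb
      simp only [Sym2.eq_iff] at hab
      rcases hab with ⟨e1, e2⟩ | ⟨e1, e2⟩
      · exact Prod.ext e1 e2
      · exfalso
        rw [e1, e2] at ha
        omega
  refine le_trans ?_ hPE
  refine (sum_formula n).trans ?_
  have hcard : P.card = ∑ j : Fin n,
      ((range (j : ℕ)).filter (fun i => i % 4 ≠ (j : ℕ) % 4 ∨ i + 4 = (j : ℕ))).card := by
    rw [hP, card_filter, Fintype.sum_prod_type_right]
    refine Finset.sum_congr rfl fun j _ => ?_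
    rw [← card_filter]
    rw [← Finset.card_map Fin.valEmbedding]
    congr 1
    ext i
    simp only [mem_map, mem_filter, mem_univ, true_and, Fin.valEmbedding_apply, mem_range]
    constructor
    · rintro ⟨a, ⟨h, h'⟩, rfl⟩
      exact ⟨h, h'⟩
    · rintro ⟨h, h'⟩
      exact ⟨⟨i, by have := j.2; omega⟩, ⟨h, h'⟩, rfl⟩
  rw [hcard, ← Fin.sum_univ_eq_sum_range (fun j => j - (j / 4 - 1)) n]
  exact Finset.sum_le_sum fun j _ => card_adj j

theorem numEdges_le_max {n : ℕ} (R : Representation n) : R.numEdges ≤ maxEdges n := by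
  rw [maxEdges]
  split_ifs with h
  · exact numEdges_le_choose R
  · exact numEdges_le (by omega) R

end Pool.Agent.Helper51.CRV
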