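import Mathlib

/-!
# Rectangles with eyes at their corners (MP_fd1666_co)

Basic definitions: closed axis-parallel rectangles of positive width and height, their four
corners, representations by pairwise disjoint rectangles carrying eyes, the visibility relation,
the graph of a representation, its number of edges and its number of eyes.
-/

namespace Pool.Agent.Helper51.CRV

/-- A closed axis-parallel rectangle `[x1, x2] × [y1, y2]` of positive width and height. -/
structure Rect where
  x1 : ℝ
  x2 : ℝ
  y1 : ℝ
  y2 : ℝ
  hx : x1 < x2
  hy : y1 < y2

/-- The point set of a rectangle. -/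
def Rect.toSet (A : Rect) : Set (ℝ × ℝ) := Set.Icc A.x1 A.x2 ×ˢ Set.Icc A.y1 A.y2

/-- The names of the four corners: north = upper left, then counterclockwise
west = lower left, south = lower right, east = upper right. -/
inductive Corner where
  | north
  | west
  | south
  | east
  deriving DecidableEq

/-- The corner of a rectangle with a given name. -/
def Rect.corner (A : Rect) : Corner → ℝ × ℝ
  | Corner.north => (A.x1, A.y2)
  | Corner.west => (A.x1, A.y1)
  | Corner.south => (A.x2, A.y1)
  | Corner.east => (A.x2, A.y2)

/-- A representation with `n` rectangles: pairwise disjoint rectangles, each with a set of eyes,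
which is an arbitrary subset of its four corners. -/
structure Representation (n : ℕ) where
  rect : Fin n → Rect
  disj : ∀ i j, i ≠ j → Disjoint (rect i).toSet (rect j).toSet
  eyes : Fin n → Finset Corner

namespace Representation

variable {n : ℕ} (R : Representation n)

/-- Rectangle `i` sees rectangle `j`: for some eye `p` of `i` there is a closed axis-parallel
rectangle `Q` of positive width and height that has `p` as a corner, meets rectangle `i` exactly
in `p`, meets rectangle `j` in a nonempty subset of its boundary and meets no other rectangle. -/
def Sees (i j : Fin n) : Prop :=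
  i ≠ j ∧ ∃ c ∈ R.eyes i, ∃ Q : Rect,
    (∃ c' : Corner, Q.corner c' = (R.rect i).corner c) ∧
    Q.toSet ∩ (R.rect i).toSet = {(R.rect i).corner c} ∧
    (Q.toSet ∩ (R.rect j).toSet).Nonempty ∧
    Q.toSet ∩ (R.rect j).toSet ⊆ frontier (R.rect j).toSet ∧
    ∀ k, k ≠ i → k ≠ j → Q.toSet ∩ (R.rect k).toSet = ∅

/-- The graph of a representation: two rectangles are adjacent when one of them sees the other. -/
def graph : SimpleGraph (Fin n) where
  Adj i j := R.Sees i j ∨ R.Sees j i
  symm := ⟨fun _ _ h => h.symm⟩
  loopless := ⟨fun _ h => h.elim (fun h => h.1 rfl) (fun h => h.1 rfl)⟩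

/-- The number of edges of the graph of a representation. -/
noncomputable def numEdges : ℕ := R.graph.edgeSet.ncard

/-- The total number of eyes of a representation. -/
def numEyes : ℕ := ∑ i, (R.eyes i).card

end Representation

end Pool.Agent.Helper51.CRV
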