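import Pool.Agent.Helper51.CRV.Upper

/-!
# Lower bound: the pinwheel construction
-/

namespace Pool.Agent.Helper51.CRV

open Finset

theorem mem_frontier_of {B : Rect} {p : ℝ × ℝ} (hp : p ∈ B.toSet)
    (h : p.1 = B.x1 ∨ p.1 = B.x2 ∨ p.2 = B.y1 ∨ p.2 = B.y2) : p ∈ frontier B.toSet := by
  refine ⟨subset_closure hp, ?_⟩
  intro hi
  rw [Rect.toSet, interior_prod_eq, interior_Icc, interior_Icc] at hi
  simp only [Set.mem_prod, Set.mem_Ioo] at hi
  obtain ⟨⟨a, b⟩, c, d⟩ := hi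
  rcases h with h | h | h | h <;> linarith

/-- `Q` touches `A` exactly in the corner `c`. -/
def Touch : Corner → Rect → Rect → Prop
  | Corner.north, A, Q => Q.x2 = A.x1 ∧ Q.y1 = A.y2
  | Corner.west, A, Q => Q.x2 = A.x1 ∧ Q.y2 = A.y1
  | Corner.south, A, Q => Q.x1 = A.x2 ∧ Q.y2 = A.y1
  | Corner.east, A, Q => Q.x1 = A.x2 ∧ Q.y1 = A.y2

theorem touch_spec {c : Corner} {A Q : Rect} (h : Touch c A Q) :
    (∃ c' : Corner, Q.corner c' = A.corner c) ∧ Q.toSet ∩ A.toSet = {A.corner c} := by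
  have hA := A.hx
  have hA' := A.hy
  have hQ := Q.hx
  have hQ' := Q.hy
  cases c <;> obtain ⟨h1, h2⟩ := h
  · refine ⟨⟨Corner.south, by simp [Rect.corner, h1, h2]⟩, ?_⟩
    ext ⟨a, b⟩
    simp only [Rect.toSet, Rect.corner, Set.mem_inter_iff, Set.mem_prod, Set.mem_Icc,
      Set.mem_singleton_iff, Prod.mk.injEq]
    constructor
    · rintro ⟨⟨⟨a1, a2⟩, a3, a4⟩, ⟨a5, a6⟩, a7, a8⟩
      constructor <;> linarith
    · rintro ⟨rfl, rfl⟩
      refine ⟨⟨⟨?_, ?_⟩, ?_, ?_⟩, ⟨?_, ?_⟩, ?_, ?_⟩ <;> linarith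
  · refine ⟨⟨Corner.east, by simp [Rect.corner, h1, h2]⟩, ?_⟩
    ext ⟨a, b⟩
    simp only [Rect.toSet, Rect.corner, Set.mem_inter_iff, Set.mem_prod, Set.mem_Icc,
      Set.mem_singleton_iff, Prod.mk.injEq]
    constructor
    · rintro ⟨⟨⟨a1, a2⟩, a3, a4⟩, ⟨a5, a6⟩, a7, a8⟩
      constructor <;> linarith
    · rintro ⟨rfl, rfl⟩
      refine ⟨⟨⟨?_, ?_⟩, ?_, ?_⟩, ⟨?_, ?_⟩, ?_, ?_⟩ <;> linarith
  · refine ⟨⟨Corner.north, by simp [Rect.corner, h1, h2]⟩, ?_⟩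
    ext ⟨a, b⟩
    simp only [Rect.toSet, Rect.corner, Set.mem_inter_iff, Set.mem_prod, Set.mem_Icc,
      Set.mem_singleton_iff, Prod.mk.injEq]
    constructor
    · rintro ⟨⟨⟨a1, a2⟩, a3, a4⟩, ⟨a5, a6⟩, a7, a8⟩
      constructor <;> linarith
    · rintro ⟨rfl, rfl⟩
      refine ⟨⟨⟨?_, ?_⟩, ?_, ?_⟩, ⟨?_, ?_⟩, ?_, ?_⟩ <;> linarith
  · refine ⟨⟨Corner.west, by simp [Rect.corner, h1, h2]⟩, ?_⟩
    ext ⟨a, b⟩
    simp only [Rect.toSet, Rect.corner, Set.mem_inter_iff, Set.mem_prod, Set.mem_Icc,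
      Set.mem_singleton_iff, Prod.mk.injEq]
    constructor
    · rintro ⟨⟨⟨a1, a2⟩, a3, a4⟩, ⟨a5, a6⟩, a7, a8⟩
      constructor <;> linarith
    · rintro ⟨rfl, rfl⟩
      refine ⟨⟨⟨?_, ?_⟩, ?_, ?_⟩, ⟨?_, ?_⟩, ?_, ?_⟩ <;> linarith

theorem sees_of {n : ℕ} {R : Representation n} {i j : Fin n} (hij : i ≠ j) (c : Corner)
    (hc : c ∈ R.eyes i) (Q : Rect) (ht : Touch c (R.rect i) Q) (hm : Meets Q (R.rect j))
    (hb : Q.x2 = (R.rect j).x1 ∨ Q.x1 = (R.rect j).x2 ∨ Q.y2 = (R.rect j).y1 ∨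
      Q.y1 = (R.rect j).y2)
    (hk : ∀ k, k ≠ i → k ≠ j → ¬ Meets Q (R.rect k)) : R.Sees i j := by
  obtain ⟨h1, h2⟩ := touch_spec ht
  refine ⟨hij, c, hc, Q, h1, h2, (nonempty_inter_iff _ _).2 hm, ?_, ?_⟩
  · rintro p ⟨hp1, hp2⟩
    refine mem_frontier_of hp2 ?_
    simp only [Rect.toSet, Set.mem_prod, Set.mem_Icc] at hp1 hp2
    obtain ⟨⟨a1, a2⟩, a3, a4⟩ := hp1
    obtain ⟨⟨b1, b2⟩, b3, b4⟩ := hp2
    rcases hb with h | h | h | h
    · left; linarith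
    · right; left; linarith
    · right; right; left; linarith
    · right; right; right; linarith
  · intro k hk1 hk2
    rw [← Set.not_nonempty_iff_eq_empty, nonempty_inter_iff]
    exact hk k hk1 hk2

/-- Rectangles with integer coordinates. -/
structure IRect where
  x1 : ℤ
  x2 : ℤ
  y1 : ℤ
  y2 : ℤ
  hx : x1 < x2
  hy : y1 < y2

/-- The real rectangle of an integer rectangle. -/
def IRect.toRect (A : IRect) : Rect where
  x1 := A.x1
  x2 := A.x2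
  y1 := A.y1
  y2 := A.y2
  hx := by exact_mod_cast A.hx
  hy := by exact_mod_cast A.hy

/-- Two integer rectangles meet. -/
def IMeets (Q A : IRect) : Prop :=
  Q.x1 ≤ A.x2 ∧ A.x1 ≤ Q.x2 ∧ Q.y1 ≤ A.y2 ∧ A.y1 ≤ Q.y2

theorem meets_toRect (Q A : IRect) : Meets Q.toRect A.toRect ↔ IMeets Q A := by
  simp only [Meets, IMeets, IRect.toRect, Int.cast_le]

/-- The coordinates of the `k`-th rectangle of group `g` of the pinwheel. -/
def pin (K k : ℤ) (hk : 0 ≤ k) (hK : k < K) : ℕ → IRect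
  | 0 => ⟨-4 * K + 2 * k, -4 * K + 2 * k + 1, -2 * K + k, -k - 1, by omega, by omega⟩
  | 1 => ⟨-2 * K + k, -k - 1, 4 * K - 2 * k - 1, 4 * K - 2 * k, by omega, by omega⟩
  | 2 => ⟨4 * K - 2 * k - 1, 4 * K - 2 * k, k + 1, 2 * K - k, by omega, by omega⟩
  | _ + 3 => ⟨k + 1, 2 * K - k, -4 * K + 2 * k, -4 * K + 2 * k + 1, by omega, by omega⟩

/-- The eyes of the rectangles of group `g`. -/
def pinEyes : ℕ → Finset Corner
  | 0 => {Corner.east, Corner.north}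
  | 1 => {Corner.south, Corner.east}
  | 2 => {Corner.west, Corner.south}
  | _ + 3 => {Corner.north, Corner.west}

theorem pinEyes_card (g : ℕ) : (pinEyes g).card = 2 := by
  rcases g with _ | _ | _ | g <;> rfl

/-- The `i`-th rectangle of the pinwheel with `n` rectangles. -/
def pinI (n : ℕ) (i : Fin n) : IRect :=
  pin n ((i : ℕ) / 4 : ℕ) (by positivity) (by have := i.2; omega) ((i : ℕ) % 4)

theorem pin_disj (K k l : ℤ) (hk : 0 ≤ k) (hK : k < K) (hl : 0 ≤ l) (hL : l < K) (g h : ℕ)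
    (hg : g < 4) (hh : h < 4) (hne : g ≠ h ∨ k ≠ l) :
    ¬ IMeets (pin K k hk hK g) (pin K l hl hL h) := by
  interval_cases g <;> interval_cases h <;> simp only [IMeets, pin] <;> omega

/-- The pinwheel representation. -/
noncomputable def pinR (n : ℕ) : Representation n where
  rect i := (pinI n i).toRect
  disj i j hij := by
    rw [← Set.not_nonempty_iff_eq_empty.trans Set.disjoint_iff_inter_eq_empty.symm,
      nonempty_inter_iff, meets_toRect]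
    refine pin_disj _ _ _ _ _ _ _ _ _ (Nat.mod_lt _ (by norm_num)) (Nat.mod_lt _ (by norm_num)) ?_
    have : (i : ℕ) ≠ j := fun h => hij (Fin.ext h)
    omega
  eyes i := pinEyes ((i : ℕ) % 4)

theorem pinR_numEyes (n : ℕ) : (pinR n).numEyes = 2 * n := by
  simp only [Representation.numEyes, pinR, pinEyes_card]
  simp [mul_comm]

/-- Integer criterion for visibility in the pinwheel. -/
theorem pin_sees {n : ℕ} {i j : Fin n} (hij : i ≠ j) (c : Corner)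
    (hc : c ∈ pinEyes ((i : ℕ) % 4)) (Q : IRect) (ht : Touch c (pinI n i).toRect Q.toRect)
    (hm : IMeets Q (pinI n j))
    (hb : Q.x2 = (pinI n j).x1 ∨ Q.x1 = (pinI n j).x2 ∨ Q.y2 = (pinI n j).y1 ∨
      Q.y1 = (pinI n j).y2)
    (hk : ∀ k, k ≠ i → k ≠ j → ¬ IMeets Q (pinI n k)) : (pinR n).Sees i j := by
  refine sees_of hij c hc Q.toRect ht ((meets_toRect _ _).2 hm) ?_ ?_
  · simpa only [IRect.toRect, pinR, Int.cast_inj] using hb
  · intro k h1 h2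
    exact fun h => hk k h1 h2 ((meets_toRect _ _).1 h)

end Pool.Agent.Helper51.CRV
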