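import Pool.Agent.Helper51.CRV.Lower

/-!
# Lower bound: adjacencies in the pinwheel
-/

namespace Pool.Agent.Helper51.CRV

open Finset

theorem pin_sees' {n : ℕ} {i j : Fin n} (gi gj k l : ℕ) (hgi : (i : ℕ) % 4 = gi)
    (hgj : (j : ℕ) % 4 = gj) (hik : (i : ℕ) / 4 = k) (hjl : (j : ℕ) / 4 = l)
    (hij : i ≠ j) (c : Corner) (hc : c ∈ pinEyes gi) (Q : IRect)
    (ht : ∀ h0 hK, Touch c (pin n k h0 hK gi).toRect Q.toRect)
    (hm : ∀ h0 hK, IMeets Q (pin n l h0 hK gj))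
    (hb : ∀ h0 hK, Q.x2 = (pin n l h0 hK gj).x1 ∨ Q.x1 = (pin n l h0 hK gj).x2 ∨
      Q.y2 = (pin n l h0 hK gj).y1 ∨ Q.y1 = (pin n l h0 hK gj).y2)
    (hk : ∀ (m : ℕ) (h0 : (0 : ℤ) ≤ m) (hK : (m : ℤ) < n) (g : ℕ), g < 4 →
      (g ≠ gi ∨ m ≠ k) → (g ≠ gj ∨ m ≠ l) → ¬ IMeets Q (pin n m h0 hK g)) :
    (pinR n).Sees i j := by
  subst hgi hgj hik hjl
  refine pin_sees hij c hc Q (ht _ _) (hm _ _) (hb _ _) ?_
  intro k hki hkj
  refine hk ((k : ℕ) / 4) _ _ _ (Nat.mod_lt _ (by norm_num)) ?_ ?_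
  · have : (k : ℕ) ≠ i := fun h => hki (Fin.ext h)
    omega
  · have : (k : ℕ) ≠ j := fun h => hkj (Fin.ext h)
    omega

theorem pin_see01 {n : ℕ} {i j : Fin n} (hgi : (i : ℕ) % 4 = 0) (hgj : (j : ℕ) % 4 = 1) :
    (pinR n).Sees i j := by
  have hi := i.2
  have hj := j.2
  have hij : i ≠ j := fun h => by rw [h] at hgi; omega
  obtain ⟨k, hk⟩ : ∃ k : ℕ, (i : ℕ) / 4 = k := ⟨_, rfl⟩
  obtain ⟨l, hl⟩ : ∃ l : ℕ, (j : ℕ) / 4 = l := ⟨_, rfl⟩
  have hkn : k < n := by omega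
  have hln : l < n := by omega
  refine pin_sees' 0 1 k l hgi hgj hk hl hij Corner.east (by simp [pinEyes])
    ⟨-4 * n + 2 * k + 1, -2 * n + l, -k - 1, 4 * n - 2 * l - 1, by omega, by omega⟩ ?_ ?_ ?_ ?_
  · intro h0 hK
    exact ⟨rfl, rfl⟩
  · intro h0 hK
    simp only [IMeets, pin]
    omega
  · intro h0 hK
    exact Or.inl rfl
  · intro m h0 hK g hg h1 h2
    interval_cases g <;> simp only [IMeets, pin] <;> omega

theorem pin_see02 {n : ℕ} {i j : Fin n} (hgi : (i : ℕ) % 4 = 0) (hgj : (j : ℕ) % 4 = 2) :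
    (pinR n).Sees i j := by
  have hi := i.2
  have hj := j.2
  have hij : i ≠ j := fun h => by rw [h] at hgi; omega
  obtain ⟨k, hk⟩ : ∃ k : ℕ, (i : ℕ) / 4 = k := ⟨_, rfl⟩
  obtain ⟨l, hl⟩ : ∃ l : ℕ, (j : ℕ) / 4 = l := ⟨_, rfl⟩
  have hkn : k < n := by omega
  have hln : l < n := by omega
  refine pin_sees' 0 2 k l hgi hgj hk hl hij Corner.east (by simp [pinEyes])
    ⟨-4 * n + 2 * k + 1, 4 * n - 2 * l - 1, -k - 1, l + 1, by omega, by omega⟩ ?_ ?_ ?_ ?_
  · intro h0 hK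
    exact ⟨rfl, rfl⟩
  · intro h0 hK
    simp only [IMeets, pin]
    omega
  · intro h0 hK
    exact Or.inl rfl
  · intro m h0 hK g hg h1 h2
    interval_cases g <;> simp only [IMeets, pin] <;> omega

theorem pin_see12 {n : ℕ} {i j : Fin n} (hgi : (i : ℕ) % 4 = 1) (hgj : (j : ℕ) % 4 = 2) :
    (pinR n).Sees i j := by
  have hi := i.2
  have hj := j.2
  have hij : i ≠ j := fun h => by rw [h] at hgi; omega
  obtain ⟨k, hk⟩ : ∃ k : ℕ, (i : ℕ) / 4 = k := ⟨_, rfl⟩
  obtain ⟨l, hl⟩ : ∃ l : ℕ, (j : ℕ) / 4 = l := ⟨_, rfl⟩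
  have hkn : k < n := by omega
  have hln : l < n := by omega
  refine pin_sees' 1 2 k l hgi hgj hk hl hij Corner.south (by simp [pinEyes])
    ⟨-k - 1, 4 * n - 2 * l - 1, 2 * n - l, 4 * n - 2 * k - 1, by omega, by omega⟩ ?_ ?_ ?_ ?_
  · intro h0 hK
    exact ⟨rfl, rfl⟩
  · intro h0 hK
    simp only [IMeets, pin]
    omega
  · intro h0 hK
    exact Or.inl rfl
  · intro m h0 hK g hg h1 h2
    interval_cases g <;> simp only [IMeets, pin] <;> omega

theorem pin_see13 {n : ℕ} {i j : Fin n} (hgi : (i : ℕ) % 4 = 1) (hgj : (j : ℕ) % 4 = 3) :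
    (pinR n).Sees i j := by
  have hi := i.2
  have hj := j.2
  have hij : i ≠ j := fun h => by rw [h] at hgi; omega
  obtain ⟨k, hk⟩ : ∃ k : ℕ, (i : ℕ) / 4 = k := ⟨_, rfl⟩
  obtain ⟨l, hl⟩ : ∃ l : ℕ, (j : ℕ) / 4 = l := ⟨_, rfl⟩
  have hkn : k < n := by omega
  have hln : l < n := by omega
  refine pin_sees' 1 3 k l hgi hgj hk hl hij Corner.south (by simp [pinEyes])
    ⟨-k - 1, l + 1, -4 * n + 2 * l + 1, 4 * n - 2 * k - 1, by omega, by omega⟩ ?_ ?_ ?_ ?_
  · intro h0 hK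
    exact ⟨rfl, rfl⟩
  · intro h0 hK
    simp only [IMeets, pin]
    omega
  · intro h0 hK
    exact Or.inl rfl
  · intro m h0 hK g hg h1 h2
    interval_cases g <;> simp only [IMeets, pin] <;> omega

theorem pin_see23 {n : ℕ} {i j : Fin n} (hgi : (i : ℕ) % 4 = 2) (hgj : (j : ℕ) % 4 = 3) :
    (pinR n).Sees i j := by
  have hi := i.2
  have hj := j.2
  have hij : i ≠ j := fun h => by rw [h] at hgi; omega
  obtain ⟨k, hk⟩ : ∃ k : ℕ, (i : ℕ) / 4 = k := ⟨_, rfl⟩
  obtain ⟨l, hl⟩ : ∃ l : ℕ, (j : ℕ) / 4 = l := ⟨_, rfl⟩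
  have hkn : k < n := by omega
  have hln : l < n := by omega
  refine pin_sees' 2 3 k l hgi hgj hk hl hij Corner.west (by simp [pinEyes])
    ⟨2 * n - l, 4 * n - 2 * k - 1, -4 * n + 2 * l + 1, k + 1, by omega, by omega⟩ ?_ ?_ ?_ ?_
  · intro h0 hK
    exact ⟨rfl, rfl⟩
  · intro h0 hK
    simp only [IMeets, pin]
    omega
  · intro h0 hK
    exact Or.inr (Or.inl rfl)
  · intro m h0 hK g hg h1 h2
    interval_cases g <;> simp only [IMeets, pin] <;> omega

theorem pin_see30 {n : ℕ} {i j : Fin n} (hgi : (i : ℕ) % 4 = 3) (hgj : (j : ℕ) % 4 = 0) :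
    (pinR n).Sees i j := by
  have hi := i.2
  have hj := j.2
  have hij : i ≠ j := fun h => by rw [h] at hgi; omega
  obtain ⟨k, hk⟩ : ∃ k : ℕ, (i : ℕ) / 4 = k := ⟨_, rfl⟩
  obtain ⟨l, hl⟩ : ∃ l : ℕ, (j : ℕ) / 4 = l := ⟨_, rfl⟩
  have hkn : k < n := by omega
  have hln : l < n := by omega
  refine pin_sees' 3 0 k l hgi hgj hk hl hij Corner.north (by simp [pinEyes])
    ⟨-4 * n + 2 * l + 1, k + 1, -4 * n + 2 * k + 1, -2 * n + l, by omega, by omega⟩ ?_ ?_ ?_ ?_
  · intro h0 hK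
    exact ⟨rfl, rfl⟩
  · intro h0 hK
    simp only [IMeets, pin]
    omega
  · intro h0 hK
    exact Or.inr (Or.inl rfl)
  · intro m h0 hK g hg h1 h2
    interval_cases g <;> simp only [IMeets, pin] <;> omega

/-- Consecutive rectangles of one group see each other. -/
theorem pin_see_path {n : ℕ} {i j : Fin n} (h : (i : ℕ) = j + 4) : (pinR n).Sees i j := by
  have hi := i.2
  have hj := j.2
  have hij : i ≠ j := fun e => by rw [e] at h; omega
  obtain ⟨l, hl⟩ : ∃ l : ℕ, (j : ℕ) / 4 = l := ⟨_, rfl⟩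
  have hkn : l + 1 < n := by omega
  have hk : (i : ℕ) / 4 = l + 1 := by omega
  have hcases : (j : ℕ) % 4 = 0 ∨ (j : ℕ) % 4 = 1 ∨ (j : ℕ) % 4 = 2 ∨ (j : ℕ) % 4 = 3 := by omega
  rcases hcases with hg | hg | hg | hg
  · refine pin_sees' 0 0 (l + 1) l (by omega) hg hk hl hij Corner.north (by simp [pinEyes])
      ⟨-4 * n + 2 * l + 1, -4 * n + 2 * l + 2, -l - 2, -l - 1, by omega, by omega⟩ ?_ ?_ ?_ ?_
    · intro h0 hK
      constructor
      · simp only [IRect.toRect, pin]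
        push_cast
        ring
      · simp only [IRect.toRect, pin]
        push_cast
        ring
    · intro h0 hK
      simp only [IMeets, pin]
      omega
    · intro h0 hK
      exact Or.inr (Or.inl rfl)
    · intro m h0 hK g hg h1 h2
      interval_cases g <;> simp only [IMeets, pin] <;> omega
  · refine pin_sees' 1 1 (l + 1) l (by omega) hg hk hl hij Corner.east (by simp [pinEyes])
      ⟨-l - 2, -l - 1, 4 * n - 2 * l - 2, 4 * n - 2 * l - 1, by omega, by omega⟩ ?_ ?_ ?_ ?_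
    · intro h0 hK
      constructor
      · simp only [IRect.toRect, pin]
        push_cast
        ring
      · simp only [IRect.toRect, pin]
        push_cast
        ring
    · intro h0 hK
      simp only [IMeets, pin]
      omega
    · intro h0 hK
      exact Or.inr (Or.inr (Or.inl rfl))
    · intro m h0 hK g hg h1 h2
      interval_cases g <;> simp only [IMeets, pin] <;> omega
  · refine pin_sees' 2 2 (l + 1) l (by omega) hg hk hl hij Corner.south (by simp [pinEyes])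
      ⟨4 * n - 2 * l - 2, 4 * n - 2 * l - 1, l + 1, l + 2, by omega, by omega⟩ ?_ ?_ ?_ ?_
    · intro h0 hK
      constructor
      · simp only [IRect.toRect, pin]
        push_cast
        ring
      · simp only [IRect.toRect, pin]
        push_cast
        ring
    · intro h0 hK
      simp only [IMeets, pin]
      omega
    · intro h0 hK
      exact Or.inl rfl
    · intro m h0 hK g hg h1 h2
      interval_cases g <;> simp only [IMeets, pin] <;> omega
  · refine pin_sees' 3 3 (l + 1) l (by omega) hg hk hl hij Corner.west (by simp [pinEyes])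
      ⟨l + 1, l + 2, -4 * n + 2 * l + 1, -4 * n + 2 * l + 2, by omega, by omega⟩ ?_ ?_ ?_ ?_
    · intro h0 hK
      constructor
      · simp only [IRect.toRect, pin]
        push_cast
        ring
      · simp only [IRect.toRect, pin]
        push_cast
        ring
    · intro h0 hK
      simp only [IMeets, pin]
      omega
    · intro h0 hK
      exact Or.inr (Or.inr (Or.inr rfl))
    · intro m h0 hK g hg h1 h2
      interval_cases g <;> simp only [IMeets, pin] <;> omega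

theorem pin_adj {n : ℕ} {i j : Fin n}
    (h : (i : ℕ) % 4 ≠ (j : ℕ) % 4 ∨ (i : ℕ) + 4 = j) : (pinR n).graph.Adj i j := by
  rcases h with h | h
  · have hi : (i : ℕ) % 4 = 0 ∨ (i : ℕ) % 4 = 1 ∨ (i : ℕ) % 4 = 2 ∨ (i : ℕ) % 4 = 3 := by omega
    have hj : (j : ℕ) % 4 = 0 ∨ (j : ℕ) % 4 = 1 ∨ (j : ℕ) % 4 = 2 ∨ (j : ℕ) % 4 = 3 := by omega
    rcases hi with hi | hi | hi | hi <;> rcases hj with hj | hj | hj | hj
    · omega
    · exact Or.inl (pin_see01 hi hj)
    · exact Or.inl (pin_see02 hi hj)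
    · exact Or.inr (pin_see30 hj hi)
    · exact Or.inr (pin_see01 hj hi)
    · omega
    · exact Or.inl (pin_see12 hi hj)
    · exact Or.inl (pin_see13 hi hj)
    · exact Or.inr (pin_see02 hj hi)
    · exact Or.inr (pin_see12 hj hi)
    · omega
    · exact Or.inl (pin_see23 hi hj)
    · exact Or.inl (pin_see30 hi hj)
    · exact Or.inr (pin_see13 hj hi)
    · exact Or.inr (pin_see23 hj hi)
    · omega
  · exact Or.inr (pin_see_path h.symm)

end Pool.Agent.Helper51.CRV
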