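import Pool.Agent.Helper51.CRV.Defs

/-!
# Upper bound: at most `3 n ^ 2 / 8 + n - 4` edges
-/

namespace Pool.Agent.Helper51.CRV

open Finset

/-- The rectangles `Q` and `A` meet, in terms of coordinates. -/
def Meets (Q A : Rect) : Prop :=
  Q.x1 ≤ A.x2 ∧ A.x1 ≤ Q.x2 ∧ Q.y1 ≤ A.y2 ∧ A.y1 ≤ Q.y2

theorem nonempty_inter_iff (Q A : Rect) : (Q.toSet ∩ A.toSet).Nonempty ↔ Meets Q A := by
  constructor
  · rintro ⟨p, hp1, hp2⟩
    simp only [Rect.toSet, Set.mem_prod, Set.mem_Icc] at hp1 hp2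
    refine ⟨?_, ?_, ?_, ?_⟩ <;> linarith [hp1.1.1, hp1.1.2, hp1.2.1, hp1.2.2, hp2.1.1, hp2.1.2,
      hp2.2.1, hp2.2.2]
  · rintro ⟨h1, h2, h3, h4⟩
    refine ⟨(max Q.x1 A.x1, max Q.y1 A.y1), ?_, ?_⟩
    · simp only [Rect.toSet, Set.mem_prod, Set.mem_Icc]
      exact ⟨⟨le_max_left _ _, max_le Q.hx.le h2⟩, ⟨le_max_left _ _, max_le Q.hy.le h4⟩⟩
    · simp only [Rect.toSet, Set.mem_prod, Set.mem_Icc]
      exact ⟨⟨le_max_right _ _, max_le h1 A.hx.le⟩, ⟨le_max_right _ _, max_le h3 A.hy.le⟩⟩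

theorem not_meets_of_disjoint {A B : Rect} (h : Disjoint A.toSet B.toSet) : ¬ Meets A B := by
  intro hm
  exact Set.not_disjoint_iff_nonempty_inter.2 ((nonempty_inter_iff A B).2 hm) h

/-- Box visibility in a family of rectangles: some box meets `i` and `j` and nothing else. -/
def Vis {n : ℕ} (R : Fin n → Rect) (i j : Fin n) : Prop :=
  i ≠ j ∧ ∃ Q : Rect, Meets Q (R i) ∧ Meets Q (R j) ∧ ∀ k, k ≠ i → k ≠ j → ¬ Meets Q (R k)

theorem Vis.symm {n : ℕ} {R : Fin n → Rect} {i j : Fin n} (h : Vis R i j) : Vis R j i := by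
  obtain ⟨h1, Q, h2, h3, h4⟩ := h
  exact ⟨h1.symm, Q, h3, h2, fun k a b => h4 k b a⟩

theorem Representation.Sees.vis {n : ℕ} {R : Representation n} {i j : Fin n} (h : R.Sees i j) :
    Vis R.rect i j := by
  obtain ⟨h1, c, _, Q, _, h2, h3, _, h4⟩ := h
  refine ⟨h1, Q, ?_, (nonempty_inter_iff _ _).1 h3, ?_⟩
  · rw [← nonempty_inter_iff, h2]
    exact Set.singleton_nonempty _
  · intro k hk1 hk2 hm
    have := (nonempty_inter_iff _ _).2 hm
    rw [h4 k hk1 hk2] at this
    exact Set.not_nonempty_empty this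

theorem Representation.adj_vis {n : ℕ} {R : Representation n} {i j : Fin n}
    (h : R.graph.Adj i j) : Vis R.rect i j := by
  rcases h with h | h
  · exact h.vis
  · exact h.vis.symm

/-- Position of the inner face of a rectangle for each of the four sides; smaller values are
further out. -/
def pos : Fin 4 → Rect → ℝ
  | 0, A => A.x2
  | 1, A => - A.x1
  | 2, A => A.y2
  | 3, A => - A.y1

/-- `Cov s w x`: the rectangle `w` lies on side `s` of `x` and covers it completely. -/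
def Cov : Fin 4 → Rect → Rect → Prop
  | 0, w, x => w.x2 < x.x1 ∧ w.y1 ≤ x.y1 ∧ x.y2 ≤ w.y2
  | 1, w, x => x.x2 < w.x1 ∧ w.y1 ≤ x.y1 ∧ x.y2 ≤ w.y2
  | 2, w, x => w.y2 < x.y1 ∧ w.x1 ≤ x.x1 ∧ x.x2 ≤ w.x2
  | 3, w, x => x.y2 < w.y1 ∧ w.x1 ≤ x.x1 ∧ x.x2 ≤ w.x2

theorem cov_block (s : Fin 4) {L w x Q : Rect} (h : Cov s w x) (hp : pos s L ≤ pos s w)
    (h1 : Meets Q L) (h2 : Meets Q x) : Meets Q w := by
  obtain ⟨a1, a2, a3, a4⟩ := h1
  obtain ⟨b1, b2, b3, b4⟩ := h2
  have hw1 := w.hx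
  have hw2 := w.hy
  have hx1 := x.hx
  have hx2 := x.hy
  have hq1 := Q.hx
  have hq2 := Q.hy
  fin_cases s <;> simp only [Cov, pos] at h hp <;> obtain ⟨c1, c2, c3⟩ := h <;>
    refine ⟨?_, ?_, ?_, ?_⟩ <;> linarith

theorem cov_irrefl (s : Fin 4) (x : Rect) : ¬ Cov s x x := by
  have hx1 := x.hx
  have hx2 := x.hy
  fin_cases s <;> simp only [Cov] <;> rintro ⟨c1, c2, c3⟩ <;> linarith

theorem not_vis_of_cov {n : ℕ} {R : Fin n → Rect} (s : Fin 4) {L w x : Fin n}
    (h : Cov s (R w) (R x)) (hp : pos s (R L) ≤ pos s (R w)) (hne : L ≠ w) : ¬ Vis R L x := by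
  rintro ⟨_, Q, h1, h2, h3⟩
  refine h3 w hne.symm ?_ (cov_block s h hp h1 h2)
  rintro rfl
  exact cov_irrefl s _ h

theorem cov_unique {n : ℕ} {R : Fin n → Rect} (s : Fin 4) {w w' x : Fin n}
    (h : Cov s (R w) (R x)) (h' : Cov s (R w') (R x)) (hv : Vis R w x) (hv' : Vis R w' x) :
    w = w' := by
  by_contra hne
  rcases le_total (pos s (R w)) (pos s (R w')) with hp | hp
  · exact not_vis_of_cov s h' hp hne hv
  · exact not_vis_of_cov s h hp (Ne.symm hne) hv'

/-- Two disjoint rectangles neither of which covers the other are strictly ordered by their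
horizontal projections. -/
theorem x_order {A B : Rect} (hd : ¬ Meets A B) (h1 : ∀ s, ¬ Cov s A B) (h2 : ∀ s, ¬ Cov s B A) :
    (A.x1 < B.x1 ∧ A.x2 < B.x2) ∨ (B.x1 < A.x1 ∧ B.x2 < A.x2) := by
  have hA := A.hx
  have hB := B.hx
  have hA' := A.hy
  have hB' := B.hy
  have c2 := h1 2
  have c3 := h1 3
  have d2 := h2 2
  have d3 := h2 3
  simp only [Cov, not_and, not_le] at c2 c3 d2 d3
  simp only [Meets, not_and, not_le] at hd
  rcases lt_trichotomy A.x1 B.x1 with h | h | h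
  · left
    refine ⟨h, ?_⟩
    by_contra hc
    push Not at hc
    have e1 : ¬ A.y2 < B.y1 := fun e => absurd (c2 e h.le) (not_lt.2 hc)
    have e2 : ¬ B.y2 < A.y1 := fun e => absurd (c3 e h.le) (not_lt.2 hc)
    push Not at e1 e2
    exact absurd (hd (by linarith) (by linarith) e2) (not_lt.2 e1)
  · exfalso
    rcases le_total A.x2 B.x2 with hc | hc
    · have e1 : ¬ B.y2 < A.y1 := fun e => absurd (d2 e h.ge) (not_lt.2 hc)
      have e2 : ¬ A.y2 < B.y1 := fun e => absurd (d3 e h.ge) (not_lt.2 hc)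
      push Not at e1 e2
      exact absurd (hd (by linarith) (by linarith) e1) (not_lt.2 e2)
    · have e1 : ¬ A.y2 < B.y1 := fun e => absurd (c2 e h.le) (not_lt.2 hc)
      have e2 : ¬ B.y2 < A.y1 := fun e => absurd (c3 e h.le) (not_lt.2 hc)
      push Not at e1 e2
      exact absurd (hd (by linarith) (by linarith) e2) (not_lt.2 e1)
  · right
    refine ⟨h, ?_⟩
    by_contra hc
    push Not at hc
    have e1 : ¬ B.y2 < A.y1 := fun e => absurd (d2 e h.le) (not_lt.2 hc)
    have e2 : ¬ A.y2 < B.y1 := fun e => absurd (d3 e h.le) (not_lt.2 hc)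
    push Not at e1 e2
    exact absurd (hd (by linarith) (by linarith) e1) (not_lt.2 e2)

/-- Swap the two coordinates. -/
def Rect.swap (A : Rect) : Rect where
  x1 := A.y1
  x2 := A.y2
  y1 := A.x1
  y2 := A.x2
  hx := A.hy
  hy := A.hx

theorem y_order {A B : Rect} (hd : ¬ Meets A B) (h1 : ∀ s, ¬ Cov s A B) (h2 : ∀ s, ¬ Cov s B A) :
    (A.y1 < B.y1 ∧ A.y2 < B.y2) ∨ (B.y1 < A.y1 ∧ B.y2 < A.y2) := by
  have key : ∀ {A B : Rect}, (∀ s, ¬ Cov s A B) → ∀ s, ¬ Cov s A.swap B.swap := by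
    intro A B h s
    fin_cases s
    · exact h 2
    · exact h 3
    · exact h 0
    · exact h 1
  refine x_order (A := A.swap) (B := B.swap) ?_ (key h1) (key h2)
  rintro ⟨a, b, c, d⟩
  exact hd ⟨c, d, a, b⟩

/-- In a sequence of five distinct reals some three terms are monotone. -/
theorem mono_triple (f : Fin 5 → ℝ) (hf : Function.Injective f) :
    ∃ i j k : Fin 5, i < j ∧ j < k ∧ ((f i < f j ∧ f j < f k) ∨ (f k < f j ∧ f j < f i)) := by
  by_contra hcon
  push Not at hcon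
  have H : ∀ i j k : Fin 5, i < j → j < k → (f i < f j → f k < f j) ∧ (f j < f i → f j < f k) := by
    intro i j k hij hjk
    obtain ⟨h1, h2⟩ := hcon i j k hij hjk
    have hne : f k ≠ f j := fun e => absurd (hf e) hjk.ne'
    constructor
    · intro h
      exact lt_of_le_of_ne (h1 h) hne
    · intro h
      rcases lt_or_gt_of_ne hne with h' | h'
      · exact absurd h (not_lt.2 (h2 h'))
      · exact h'
  rcases lt_or_gt_of_ne (fun e => absurd (hf e) (by decide) : f 0 ≠ f 1) with h | h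
  · have a := (H 0 1 2 (by decide) (by decide)).1 h
    have b := (H 1 2 3 (by decide) (by decide)).2 a
    have c := (H 2 3 4 (by decide) (by decide)).1 b
    have d := (H 0 1 3 (by decide) (by decide)).1 h
    have e := (H 1 3 4 (by decide) (by decide)).2 d
    linarith
  · have a := (H 0 1 2 (by decide) (by decide)).2 h
    have b := (H 1 2 3 (by decide) (by decide)).1 a
    have c := (H 2 3 4 (by decide) (by decide)).2 b
    have d := (H 0 1 3 (by decide) (by decide)).2 h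
    have e := (H 1 3 4 (by decide) (by decide)).1 d
    linarith

/-- The pairs that see each other and such that neither covers the other. -/
def core {n : ℕ} (R : Fin n → Rect) (I : Finset (Fin n)) : SimpleGraph I where
  Adj i j := Vis R i j ∧ (∀ s, ¬ Cov s (R i) (R j)) ∧ (∀ s, ¬ Cov s (R j) (R i))
  symm := ⟨fun _ _ h => ⟨h.1.symm, h.2.2, h.2.1⟩⟩
  loopless := ⟨fun _ h => h.1.1 rfl⟩

theorem core_cliqueFree {n : ℕ} (R : Fin n → Rect)
    (hd : ∀ i j, i ≠ j → ¬ Meets (R i) (R j)) (I : Finset (Fin n)) :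
    (core R I).CliqueFree 5 := by
  intro t ht
  obtain ⟨hclique, hcard⟩ := ht
  have hadj : ∀ i ∈ t, ∀ j ∈ t, i ≠ j → (core R I).Adj i j := by
    intro i hi j hj hij
    exact hclique hi hj hij
  have hxo : ∀ i ∈ t, ∀ j ∈ t, i ≠ j →
      ((R i).x1 < (R j).x1 ∧ (R i).x2 < (R j).x2) ∨ ((R j).x1 < (R i).x1 ∧ (R j).x2 < (R i).x2) := by
    intro i hi j hj hij
    have h := hadj i hi j hj hij
    exact x_order (hd _ _ h.1.1) h.2.1 h.2.2
  have hyo : ∀ i ∈ t, ∀ j ∈ t, i ≠ j →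
      ((R i).y1 < (R j).y1 ∧ (R i).y2 < (R j).y2) ∨ ((R j).y1 < (R i).y1 ∧ (R j).y2 < (R i).y2) := by
    intro i hi j hj hij
    have h := hadj i hi j hj hij
    exact y_order (hd _ _ h.1.1) h.2.1 h.2.2
  -- sort by x1
  have hinj : Set.InjOn (fun i : I => (R i).x1) t := by
    intro i hi j hj hij
    by_contra hne
    rcases hxo i hi j hj hne with h | h
    · exact absurd hij h.1.ne
    · exact absurd hij h.1.ne'
  have hcardim : (t.image (fun i : I => (R i).x1)).card = 5 := by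
    rw [Finset.card_image_of_injOn hinj, hcard]
  set e := (t.image (fun i : I => (R i).x1)).orderEmbOfFin hcardim with he
  have hmem : ∀ a : Fin 5, ∃ i ∈ t, (R i).x1 = e a := by
    intro a
    have := Finset.orderEmbOfFin_mem (t.image (fun i : I => (R i).x1)) hcardim a
    obtain ⟨i, hi, hie⟩ := Finset.mem_image.1 this
    exact ⟨i, hi, hie⟩
  choose g hgt hge using hmem
  have hglt : ∀ a b : Fin 5, a < b → (R (g a)).x1 < (R (g b)).x1 := by
    intro a b hab
    rw [hge, hge]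
    exact e.strictMono hab
  have hgne : ∀ a b : Fin 5, a < b → g a ≠ g b := by
    intro a b hab h
    have := hglt a b hab
    rw [h] at this
    exact lt_irrefl _ this
  have hgx : ∀ a b : Fin 5, a < b → (R (g a)).x1 < (R (g b)).x1 ∧ (R (g a)).x2 < (R (g b)).x2 := by
    intro a b hab
    rcases hxo _ (hgt a) _ (hgt b) (hgne a b hab) with h | h
    · exact h
    · exact absurd (hglt a b hab) (not_lt.2 h.1.le)
  have hfinj : Function.Injective (fun a => (R (g a)).y1) := by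
    intro a b hab
    simp only at hab
    by_contra hne
    have hne' : g a ≠ g b := by
      rcases lt_or_gt_of_ne hne with h | h
      · exact hgne _ _ h
      · exact (hgne _ _ h).symm
    rcases hyo _ (hgt a) _ (hgt b) hne' with h | h
    · exact absurd hab h.1.ne
    · exact absurd hab h.1.ne'
  obtain ⟨i, j, k, hij, hjk, hm⟩ := mono_triple _ hfinj
  have hik : i < k := hij.trans hjk
  obtain ⟨⟨_, Q, hQ1, hQ2, hQ3⟩, _⟩ := hadj _ (hgt i) _ (hgt k) (hgne i k hik)
  refine hQ3 (g j) ?_ ?_ ?_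
  · exact fun h => hgne i j hij (Subtype.ext h).symm
  · exact fun h => hgne j k hjk (Subtype.ext h)
  · obtain ⟨a1, a2, a3, a4⟩ := hQ1
    obtain ⟨b1, b2, b3, b4⟩ := hQ2
    have x1 := hgx i j hij
    have x2 := hgx j k hjk
    have y1 := hyo _ (hgt i) _ (hgt j) (hgne i j hij)
    have y2 := hyo _ (hgt j) _ (hgt k) (hgne j k hjk)
    rcases hm with ⟨m1, m2⟩ | ⟨m1, m2⟩
    · rcases y1 with y1 | y1
      · rcases y2 with y2 | y2
        · refine ⟨?_, ?_, ?_, ?_⟩ <;> linarith [x1.1, x1.2, x2.1, x2.2, y1.1, y1.2, y2.1, y2.2]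
        · exact absurd m2 (not_lt.2 y2.1.le)
      · exact absurd m1 (not_lt.2 y1.1.le)
    · rcases y1 with y1 | y1
      · exact absurd m2 (not_lt.2 y1.1.le)
      · rcases y2 with y2 | y2
        · exact absurd m1 (not_lt.2 y2.1.le)
        · refine ⟨?_, ?_, ?_, ?_⟩ <;> linarith [x1.1, x1.2, x2.1, x2.2, y1.1, y1.2, y2.1, y2.2]

end Pool.Agent.Helper51.CRV
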